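import Pool.Agent.Helper19.CS.TAL

/-!
Row ERR of project CS: the error of a disjunction of few predicates with small certificates.
-/

namespace Pool.Agent.Helper19.CS

open Pool.Agent.Helper62.CS Classical

/-- the weight of an event -/
noncomputable def SS {Q V : Type} [Fintype Q] [Fintype V] (ρ : ℝ)
    (P : (Q → V → Bool) → Prop) : ℝ :=
  ∑ ξ : Q → V → Bool, if P ξ then wt ρ ξ else 0

theorem SS_eq {Q V : Type} [Fintype Q] [Fintype V] (ρ : ℝ) (P : (Q → V → Bool) → Prop)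
    (inst : ∀ ξ, Decidable (P ξ)) :
    (∑ ξ : Q → V → Bool, @ite ℝ (P ξ) (inst ξ) (wt ρ ξ) 0) = SS ρ P := by
  unfold SS
  refine Finset.sum_congr rfl (fun ξ _ => ?_)
  by_cases h : P ξ
  · rw [if_pos h, if_pos h]
  · rw [if_neg h, if_neg h]

theorem SS_add {Q V : Type} [Fintype Q] [Fintype V] (ρ : ℝ) (P R : (Q → V → Bool) → Prop) :
    SS ρ P = SS ρ (fun ξ => P ξ ∧ R ξ) + SS ρ (fun ξ => P ξ ∧ ¬ R ξ) := by
  unfold SS
  rw [← Finset.sum_add_distrib]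
  refine Finset.sum_congr rfl (fun ξ _ => ?_)
  by_cases h : P ξ
  · by_cases h2 : R ξ
    · simp [h, h2]
    · simp [h, h2]
  · simp [h]

theorem SS_mono {Q V : Type} [Fintype Q] [Fintype V] {ρ : ℝ} (h0 : 0 ≤ ρ) (h1 : ρ ≤ 1)
    {P R : (Q → V → Bool) → Prop} (h : ∀ ξ, P ξ → R ξ) : SS ρ P ≤ SS ρ R := by
  unfold SS
  refine Finset.sum_le_sum (fun ξ _ => ?_)
  by_cases hP : P ξ
  · rw [if_pos hP, if_pos (h ξ hP)]
  · rw [if_neg hP]
    split_ifs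
    · exact wt_nonneg h0 h1 ξ
    · exact le_refl 0

theorem SS_nonneg {Q V : Type} [Fintype Q] [Fintype V] {ρ : ℝ} (h0 : 0 ≤ ρ) (h1 : ρ ≤ 1)
    (P : (Q → V → Bool) → Prop) : 0 ≤ SS ρ P := by
  unfold SS
  refine Finset.sum_nonneg (fun ξ _ => ?_)
  split_ifs
  · exact wt_nonneg h0 h1 ξ
  · exact le_refl 0

theorem SS_exists_le {Q V : Type} [Fintype Q] [Fintype V] {ρ : ℝ} (h0 : 0 ≤ ρ) (h1 : ρ ≤ 1)
    {K : ℕ} (P : Fin K → (Q → V → Bool) → Prop) :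
    SS ρ (fun ξ => ∃ i, P i ξ) ≤ ∑ i, SS ρ (P i) := by
  unfold SS
  rw [Finset.sum_comm]
  refine Finset.sum_le_sum (fun ξ _ => ?_)
  have hnn : ∀ i ∈ (Finset.univ : Finset (Fin K)), 0 ≤ (if P i ξ then wt ρ ξ else 0) := by
    intro i _
    split_ifs
    · exact wt_nonneg h0 h1 ξ
    · exact le_refl 0
  by_cases h : ∃ i, P i ξ
  · rw [if_pos h]
    obtain ⟨i, hi⟩ := h
    calc wt ρ ξ = (if P i ξ then wt ρ ξ else 0) := by rw [if_pos hi]
      _ ≤ _ := Finset.single_le_sum hnn (Finset.mem_univ i)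
  · rw [if_neg h]
    exact Finset.sum_nonneg hnn

theorem quarter_le (N : ℕ) (hN : 2 ≤ N) (p : ℝ) (h0 : 0 ≤ p) (h1 : (N : ℝ) * p ≤ 1) :
    1 / 4 ≤ (1 - p) ^ N := by
  have hN2 : (2 : ℝ) ≤ (N : ℝ) := by exact_mod_cast hN
  have hp : p ≤ 1 / 2 := by nlinarith
  have hb := one_add_mul_self_le_rpow_one_add (s := -p) (by linarith) (p := (N : ℝ) / 2)
    (by linarith)
  have h2 : (1 / 2 : ℝ) ≤ (1 + -p) ^ ((N : ℝ) / 2) := by
    refine le_trans ?_ hb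
    nlinarith
  have h3 : (1 - p) ^ N = ((1 + -p) ^ ((N : ℝ) / 2)) ^ 2 := by
    rw [← Real.rpow_natCast ((1 + -p) ^ ((N : ℝ) / 2)) 2, ← Real.rpow_mul (by linarith)]
    rw [show (N : ℝ) / 2 * ((2 : ℕ) : ℝ) = (N : ℝ) by push_cast; ring, Real.rpow_natCast]
    rw [sub_eq_add_neg]
  rw [h3]
  nlinarith

theorem st_ERR : ST_TAL → ST_EMP → ST_ERR := by
  intro hTAL hEMP Q V _ _ ρ k s m K g h0 h1 hN2 hNρ hp1 hp2 hK hg hm hmN
  obtain ⟨f, hf⟩ : ∃ f : (Q → V → Bool) → Prop, ∀ ξ, f ξ ↔ ∃ i, g i ξ :=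
    ⟨fun ξ => ∃ i, g i ξ, fun ξ => Iff.rfl⟩
  set full : (Q → V → Bool) → Prop := fun ξ => ∀ q, ∃ v, ξ q v = true with hfull
  set p : ℝ := (1 - ρ) ^ Fintype.card V with hp
  have hp0 : 0 ≤ p := pow_nonneg (by linarith) _
  have hfulln : (1 / 4 : ℝ) ≤ SS ρ full := by
    have h2 := (st_FUL Q V ρ h0 h1).2
    rw [SS_eq] at h2
    rw [hfull, h2]
    exact quarter_le _ hN2 p hp0 hp2
  have htot : SS ρ (fun _ : Q → V → Bool => True) = 1 := by
    have h2 := (st_FUL Q V ρ h0 h1).1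
    unfold SS
    simp only [if_true]
    exact h2
  -- the bad configurations
  set B : (Q → V → Bool) → Prop :=
    fun ξ => ∃ i, (g i ξ ∧ 2 * m * (2 * k + 1) ≤ (crit (g i) ξ).card) with hB
  have hBle : SS ρ B ≤ (1 / 1024 : ℝ) := by
    have h2 : SS ρ B ≤ ∑ i : Fin K, SS ρ
        (fun ξ => g i ξ ∧ 2 * m * (2 * k + 1) ≤ (crit (g i) ξ).card) :=
      SS_exists_le h0 h1 (fun i ξ => g i ξ ∧ 2 * m * (2 * k + 1) ≤ (crit (g i) ξ).card)
    have h3 : ∀ i : Fin K, SS ρ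
        (fun ξ => g i ξ ∧ 2 * m * (2 * k + 1) ≤ (crit (g i) ξ).card) ≤ (1 / 4 : ℝ) ^ m := by
      intro i
      have h4 := hTAL Q V ρ k m (g i) h0 h1 hNρ (hg i) (by omega)
      rw [SS_eq] at h4
      exact h4
    have h5 : ∑ i : Fin K, SS ρ
        (fun ξ => g i ξ ∧ 2 * m * (2 * k + 1) ≤ (crit (g i) ξ).card)
        ≤ (K : ℝ) * (1 / 4 : ℝ) ^ m := by
      refine le_trans (Finset.sum_le_sum (fun i _ => h3 i)) ?_
      rw [Finset.sum_const, Finset.card_univ, Fintype.card_fin, nsmul_eq_mul]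
    have h6 : (K : ℝ) ≤ (2 : ℝ) ^ s := by exact_mod_cast hK
    have h7 : (1 / 4 : ℝ) ^ m ≤ (1 / 4 : ℝ) ^ (s + 10) :=
      pow_le_pow_of_le_one (by norm_num) (by norm_num) (by omega)
    have h8 : (2 : ℝ) ^ s * (1 / 4 : ℝ) ^ (s + 10) ≤ 1 / 1024 := by
      rw [pow_add, ← mul_assoc, ← mul_pow]
      have h9 : ((2 : ℝ) * (1 / 4)) ^ s ≤ 1 := pow_le_one₀ (by norm_num) (by norm_num)
      have h10 : (1 / 4 : ℝ) ^ 10 ≤ 1 / 1024 := by norm_num
      have h11 : (0 : ℝ) ≤ (1 / 4 : ℝ) ^ 10 := by norm_num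
      calc ((2 : ℝ) * (1 / 4)) ^ s * (1 / 4) ^ 10 ≤ 1 * (1 / 4) ^ 10 :=
            mul_le_mul_of_nonneg_right h9 h11
        _ ≤ 1 / 1024 := by rw [one_mul]; exact h10
    calc SS ρ B ≤ (K : ℝ) * (1 / 4 : ℝ) ^ m := le_trans h2 h5
      _ ≤ (2 : ℝ) ^ s * (1 / 4 : ℝ) ^ (s + 10) :=
        mul_le_mul h6 h7 (by positivity) (by positivity)
      _ ≤ 1 / 1024 := h8
  -- the configurations that are emptied
  have hemp : (1 / 4 : ℝ) * SS ρ (fun ξ => (full ξ ∧ f ξ) ∧ ¬ B ξ)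
      ≤ SS ρ (fun ξ => f ξ ∧ ¬ full ξ) := by
    have h2 := hEMP Q V ρ f h0 h1
    refine le_trans ?_ (le_trans h2 (le_of_eq (SS_eq ρ (fun ξ => f ξ ∧ ¬ full ξ) _)))
    have h3 : SS ρ (fun ξ => (full ξ ∧ f ξ) ∧ ¬ B ξ) * ((Fintype.card Q : ℝ) / 2)
        ≤ ∑ ξ : Q → V → Bool, (if (∀ q, ∃ v, ξ q v = true) then
          wt ρ ξ * ((Finset.univ.filter (fun q => f (clr ξ q))).card : ℝ) else 0) := by
      unfold SS
      rw [Finset.sum_mul]
      refine Finset.sum_le_sum (fun ξ _ => ?_)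
      have hw := wt_nonneg h0 h1 ξ
      by_cases h4 : (full ξ ∧ f ξ) ∧ ¬ B ξ
      · rw [if_pos h4]
        have h5 : ∀ q, ∃ v, ξ q v = true := h4.1.1
        rw [if_pos h5]
        refine mul_le_mul_of_nonneg_left ?_ hw
        obtain ⟨i, hi⟩ := (hf ξ).mp h4.1.2
        have h6 : (crit (g i) ξ).card < 2 * m * (2 * k + 1) := by
          by_contra h7
          exact h4.2 ⟨i, hi, not_lt.mp h7⟩
        have h7 : (Finset.univ : Finset Q) ⊆ crit (g i) ξ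
            ∪ (Finset.univ.filter (fun q => f (clr ξ q))) := by
          intro q _
          rw [Finset.mem_union]
          by_cases h8 : g i (clr ξ q)
          · right
            rw [Finset.mem_filter]
            exact ⟨Finset.mem_univ q, (hf _).mpr ⟨i, h8⟩⟩
          · left
            unfold crit
            rw [Finset.mem_filter]
            exact ⟨Finset.mem_univ q, h8⟩
        have h8 := le_trans (Finset.card_le_card h7) (Finset.card_union_le _ _)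
        rw [Finset.card_univ] at h8
        have h9 : Fintype.card Q ≤ 2 * (Finset.univ.filter (fun q => f (clr ξ q))).card := by
          omega
        have h10 : (Fintype.card Q : ℝ)
            ≤ 2 * ((Finset.univ.filter (fun q => f (clr ξ q))).card : ℝ) := by
          exact_mod_cast h9
        linarith
      · rw [if_neg h4, zero_mul]
        split_ifs
        · exact mul_nonneg hw (Nat.cast_nonneg _)
        · exact le_refl 0
    have h4 : 0 ≤ SS ρ (fun ξ => (full ξ ∧ f ξ) ∧ ¬ B ξ) := SS_nonneg h0 h1 _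
    have h5 := mul_le_mul_of_nonneg_left h3 hp0
    refine le_trans ?_ h5
    have h6 : p * (SS ρ (fun ξ => (full ξ ∧ f ξ) ∧ ¬ B ξ) * ((Fintype.card Q : ℝ) / 2))
        = ((Fintype.card Q : ℝ) * p) / 2 * SS ρ (fun ξ => (full ξ ∧ f ξ) ∧ ¬ B ξ) := by
      ring
    rw [h6]
    refine mul_le_mul_of_nonneg_right ?_ h4
    linarith
  rw [SS_eq]
  have e1 := SS_add ρ (fun _ : Q → V → Bool => True) (fun ξ => (f ξ ↔ full ξ))
  have e2 := SS_add ρ (fun ξ : Q → V → Bool => True ∧ ¬ (f ξ ↔ full ξ)) full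
  have e3 := SS_add ρ full f
  have e4 := SS_add ρ (fun ξ : Q → V → Bool => full ξ ∧ f ξ) B
  have i1 : SS ρ (fun ξ : Q → V → Bool => full ξ ∧ ¬ f ξ)
      ≤ SS ρ (fun ξ : Q → V → Bool => (True ∧ ¬ (f ξ ↔ full ξ)) ∧ full ξ) :=
    SS_mono h0 h1 (fun ξ h => ⟨⟨trivial, fun h2 => h.2 (h2.mpr h.1)⟩, h.1⟩)
  have i2 : SS ρ (fun ξ : Q → V → Bool => f ξ ∧ ¬ full ξ)
      ≤ SS ρ (fun ξ : Q → V → Bool => (True ∧ ¬ (f ξ ↔ full ξ)) ∧ ¬ full ξ) :=
    SS_mono h0 h1 (fun ξ h => ⟨⟨trivial, fun h2 => h.2 (h2.mp h.1)⟩, h.2⟩)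
  have i3 : SS ρ (fun ξ : Q → V → Bool => (full ξ ∧ f ξ) ∧ B ξ) ≤ SS ρ B :=
    SS_mono h0 h1 (fun ξ h => h.2)
  have i4 : SS ρ (fun ξ : Q → V → Bool => (∃ i, g i ξ) ↔ ∀ q, ∃ v, ξ q v = true)
      ≤ SS ρ (fun ξ : Q → V → Bool => True ∧ (f ξ ↔ full ξ)) :=
    SS_mono h0 h1 (fun ξ h => ⟨trivial, (hf ξ).trans h⟩)
  have i5 : 0 ≤ SS ρ (fun ξ : Q → V → Bool => full ξ ∧ ¬ f ξ) := SS_nonneg h0 h1 _
  rw [htot] at e1
  linarith

end Pool.Agent.Helper19.CS
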