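import Pool.Agent.Helper62.CS.Stmts

/-!
Row FUL of project CS.
-/

namespace Pool.Agent.Helper19.CS

open Pool.Agent.Helper62.CS Classical

/-- the weight of a row -/
noncomputable def rwt {V : Type} [Fintype V] (ρ : ℝ) (r : V → Bool) : ℝ :=
  ∏ v, (if r v = true then ρ else 1 - ρ)

theorem sum_prod_fun {ι κ : Type} [Fintype ι] [Fintype κ] (f : ι → κ → ℝ) :
    ∑ x : ι → κ, ∏ i, f i (x i) = ∏ i, ∑ j, f i j := by
  rw [Finset.prod_univ_sum]
  rw [Fintype.piFinset_univ]

theorem rwt_total {V : Type} [Fintype V] (ρ : ℝ) : ∑ r : V → Bool, rwt ρ r = 1 := by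
  unfold rwt
  rw [sum_prod_fun (fun (_ : V) (b : Bool) => if b = true then ρ else 1 - ρ)]
  simp

theorem wt_eq {Q V : Type} [Fintype Q] [Fintype V] (ρ : ℝ) (ξ : Q → V → Bool) :
    wt ρ ξ = ∏ q, rwt ρ (ξ q) := rfl

theorem rwt_nonempty {V : Type} [Fintype V] (ρ : ℝ) :
    ∑ r : V → Bool, (if ∃ v, r v = true then rwt ρ r else 0)
      = 1 - (1 - ρ) ^ Fintype.card V := by
  have h1 : ∀ r : V → Bool, (if ∃ v, r v = true then rwt ρ r else 0)
      = rwt ρ r - (if r = fun _ => false then rwt ρ r else 0) := by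
    intro r
    by_cases h : ∃ v, r v = true
    · have h2 : r ≠ fun _ => false := by
        intro h3
        obtain ⟨v, hv⟩ := h
        rw [h3] at hv
        exact absurd hv (by simp)
      simp [h, h2]
    · have h2 : r = fun _ => false := by
        funext v
        by_contra h3
        exact h ⟨v, by simpa using h3⟩
      rw [if_neg h, if_pos h2]
      ring
  rw [Finset.sum_congr rfl (fun r _ => h1 r), Finset.sum_sub_distrib, rwt_total]
  rw [Finset.sum_ite_eq']
  simp [rwt]

theorem st_FUL : ST_FUL := by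
  intro Q V _ _ ρ _ _
  constructor
  · have h1 : ∑ ξ : Q → V → Bool, wt ρ ξ = ∏ _q : Q, ∑ r : V → Bool, rwt ρ r :=
      sum_prod_fun (fun (_ : Q) (r : V → Bool) => rwt ρ r)
    rw [h1, rwt_total]
    simp
  · have h1 : ∀ ξ : Q → V → Bool, (if (∀ q, ∃ v, ξ q v = true) then wt ρ ξ else 0)
        = ∏ q, (if ∃ v, ξ q v = true then rwt ρ (ξ q) else 0) := by
      intro ξ
      by_cases h : ∀ q, ∃ v, ξ q v = true
      · rw [if_pos h, wt_eq]
        refine Finset.prod_congr rfl (fun q _ => ?_)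
        rw [if_pos (h q)]
      · rw [if_neg h]
        push Not at h
        obtain ⟨q, hq⟩ := h
        symm
        refine Finset.prod_eq_zero (Finset.mem_univ q) ?_
        rw [if_neg]
        rintro ⟨v, hv⟩
        exact hq v hv
    rw [Finset.sum_congr rfl (fun ξ _ => h1 ξ)]
    have h2 : ∑ ξ : Q → V → Bool, ∏ q, (if ∃ v, ξ q v = true then rwt ρ (ξ q) else 0)
        = ∏ _q : Q, ∑ r : V → Bool, (if ∃ v, r v = true then rwt ρ r else 0) :=
      sum_prod_fun (fun (_ : Q) (r : V → Bool) => if ∃ v, r v = true then rwt ρ r else 0)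
    rw [h2, rwt_nonempty]
    simp

end Pool.Agent.Helper19.CS
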