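import Pool.Agent.Helper19.CS.FUL

/-!
Row PSH of project CS: from the biased measure to uniform blocks of bits.
-/

namespace Pool.Agent.Helper19.CS

open Pool.Agent.Helper62.CS Classical

theorem two_sum {ι A B : Type} [Fintype ι] [Fintype A] [Fintype B] (f : ι → A → B → ℝ) :
    ∑ Z : ι → A, ∑ ξ : ι → B, ∏ i, f i (Z i) (ξ i) = ∏ i, ∑ a, ∑ b, f i a b := by
  have h1 : ∀ Z : ι → A, ∑ ξ : ι → B, ∏ i, f i (Z i) (ξ i) = ∏ i, ∑ b, f i (Z i) b :=
    fun Z => sum_prod_fun (fun i b => f i (Z i) b)
  rw [Finset.sum_congr rfl (fun Z _ => h1 Z)]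
  exact sum_prod_fun (fun i a => ∑ b, f i a b)

theorem two_sum2 {Q V A B : Type} [Fintype Q] [Fintype V] [Fintype A] [Fintype B]
    (g : Q → V → A → B → ℝ) :
    ∑ Z : Q → V → A, ∑ ξ : Q → V → B, ∏ q, ∏ v, g q v (Z q v) (ξ q v)
      = ∏ q, ∏ v, ∑ a, ∑ b, g q v a b := by
  rw [two_sum (fun (q : Q) (z : V → A) (x : V → B) => ∏ v, g q v (z v) (x v))]
  exact Finset.prod_congr rfl (fun q _ => two_sum (fun v a b => g q v a b))

/-- the weight of a block without hit -/
noncomputable def mu (j : ℕ) (z : Fin j → Bool) : ℝ :=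
  if z = fun _ => true then 0 else 1 / ((2 : ℝ) ^ j - 1)

theorem pow_gt_one {j : ℕ} (hj : 1 ≤ j) : (1 : ℝ) < (2 : ℝ) ^ j :=
  one_lt_pow₀ (by norm_num) (by omega)

theorem mu_total {j : ℕ} (hj : 1 ≤ j) : ∑ z : Fin j → Bool, mu j z = 1 := by
  have hne : (2 : ℝ) ^ j - 1 ≠ 0 := by
    have := pow_gt_one hj
    intro h
    linarith
  have h1 : ∀ z : Fin j → Bool, mu j z = 1 / ((2 : ℝ) ^ j - 1)
      - (if z = fun _ => true then 1 / ((2 : ℝ) ^ j - 1) else 0) := by
    intro z
    unfold mu
    by_cases h : z = fun _ => true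
    · rw [if_pos h, if_pos h]
      ring
    · rw [if_neg h, if_neg h]
      ring
  rw [Finset.sum_congr rfl (fun z _ => h1 z), Finset.sum_sub_distrib, Finset.sum_ite_eq',
    Finset.sum_const, Finset.card_univ]
  simp only [Fintype.card_pi, Fintype.card_bool, Finset.prod_const, Finset.card_univ,
    Fintype.card_fin, nsmul_eq_mul, Finset.mem_univ, if_true, Nat.cast_pow, Nat.cast_ofNat]
  field_simp

/-- the pushforward of the biased measure is uniform -/
theorem push_one {j : ℕ} (hj : 1 ≤ j) (x : Fin j → Bool) :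
    ∑ z : Fin j → Bool, ∑ e : Bool, mu j z * (if e = true then (1 / 2 : ℝ) ^ j
      else 1 - (1 / 2 : ℝ) ^ j) * (if (if e = true then (fun _ => true) else z) = x then 1 else 0)
      = (1 / 2 : ℝ) ^ j := by
  have hne : (2 : ℝ) ^ j - 1 ≠ 0 := by
    have := pow_gt_one hj
    intro h
    linarith
  have hne2 : (2 : ℝ) ^ j ≠ 0 := by positivity
  have h1 : ∀ z : Fin j → Bool, ∑ e : Bool, mu j z * (if e = true then (1 / 2 : ℝ) ^ j
      else 1 - (1 / 2 : ℝ) ^ j) * (if (if e = true then (fun _ => true) else z) = x then 1 else 0)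
      = mu j z * ((1 / 2 : ℝ) ^ j * (if (fun _ => true) = x then 1 else 0))
        + (if z = x then mu j z * (1 - (1 / 2 : ℝ) ^ j) else 0) := by
    intro z
    rw [Fintype.sum_bool]
    by_cases h : z = x
    · simp [h]
    · simp [h]
  rw [Finset.sum_congr rfl (fun z _ => h1 z), Finset.sum_add_distrib, ← Finset.sum_mul,
    mu_total hj, Finset.sum_ite_eq']
  simp only [Finset.mem_univ, if_true, one_mul]
  unfold mu
  by_cases h : x = fun _ => true
  · rw [if_pos h.symm, if_pos h]
    ring
  · rw [if_neg (fun h2 => h h2.symm), if_neg h]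
    rw [one_div_pow]
    field_simp
    ring

theorem st_PSH : ST_PSH := by
  intro Q V _ _ j θ F hj hF
  -- the joint weight
  set ρ : ℝ := (1 / 2 : ℝ) ^ j with hρ
  set M : (Q → V → Fin j → Bool) → ℝ := fun Z => ∏ q, ∏ v, mu j (Z q v) with hM
  have hM0 : ∀ Z, 0 ≤ M Z := by
    intro Z
    refine Finset.prod_nonneg (fun q _ => Finset.prod_nonneg (fun v _ => ?_))
    unfold mu
    split_ifs
    · exact le_refl 0
    · have := pow_gt_one hj
      exact div_nonneg zero_le_one (by linarith)
  have hMtot : ∑ Z, M Z = 1 := by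
    have h1 : ∑ Z, M Z = ∏ _q : Q, ∑ z : V → Fin j → Bool, ∏ v, mu j (z v) :=
      sum_prod_fun (fun (_ : Q) (z : V → Fin j → Bool) => ∏ v, mu j (z v))
    have h2 : ∑ z : V → Fin j → Bool, ∏ v, mu j (z v) = 1 := by
      have h3 : ∑ z : V → Fin j → Bool, ∏ v, mu j (z v) = ∏ _v : V, ∑ z : Fin j → Bool, mu j z :=
        sum_prod_fun (fun (_ : V) (z : Fin j → Bool) => mu j z)
      rw [h3, mu_total hj]
      simp
    rw [h1, h2]
    simp
  set X : (Q → V → Fin j → Bool) → (Q → V → Bool) → (Q → V → Fin j → Bool) :=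
    fun Z ξ => fun q v => if ξ q v = true then (fun _ => true) else Z q v with hX
  have hone : ∀ b : Q → V → Fin j → Bool,
      ∑ Z : Q → V → Fin j → Bool, ∑ ξ : Q → V → Bool, M Z * wt ρ ξ * (if X Z ξ = b then 1 else 0)
        = ρ ^ (Fintype.card V * Fintype.card Q) := by
    intro b
    have h1 : ∀ (Z : Q → V → Fin j → Bool) (ξ : Q → V → Bool),
        M Z * wt ρ ξ * (if X Z ξ = b then 1 else 0)
        = ∏ q, ∏ v, (mu j (Z q v) * (if ξ q v = true then ρ else 1 - ρ)
          * (if (if ξ q v = true then (fun _ => true) else Z q v) = b q v then 1 else 0)) := by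
      intro Z ξ
      simp only [Finset.prod_mul_distrib]
      have h2 : (if X Z ξ = b then (1 : ℝ) else 0)
          = ∏ q, ∏ v, (if (if ξ q v = true then (fun _ => true) else Z q v) = b q v
            then (1 : ℝ) else 0) := by
        by_cases h : X Z ξ = b
        · rw [if_pos h]
          symm
          refine Finset.prod_eq_one (fun q _ => Finset.prod_eq_one (fun v _ => ?_))
          rw [if_pos]
          rw [← h]
        · rw [if_neg h]
          have h3 : ∃ q v, X Z ξ q v ≠ b q v := by
            by_contra h4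
            push Not at h4
            exact h (funext fun q => funext fun v => h4 q v)
          obtain ⟨q, v, hqv⟩ := h3
          symm
          refine Finset.prod_eq_zero (Finset.mem_univ q) (Finset.prod_eq_zero
            (Finset.mem_univ v) ?_)
          rw [if_neg]
          exact hqv
      rw [h2]
      rfl
    rw [Finset.sum_congr rfl (fun Z _ => Finset.sum_congr rfl (fun ξ _ => h1 Z ξ))]
    rw [two_sum2 (fun (q : Q) (v : V) (z : Fin j → Bool) (e : Bool) =>
      mu j z * (if e = true then ρ else 1 - ρ)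
          * (if (if e = true then (fun _ => true) else z) = b q v then 1 else 0))]
    rw [Finset.prod_congr rfl (fun q _ => Finset.prod_congr rfl
      (fun v _ => push_one hj (b q v)))]
    simp only [Finset.prod_const, Finset.card_univ]
    rw [← pow_mul]
  have hkey : ρ ^ (Fintype.card V * Fintype.card Q)
      * ((Finset.univ.filter (fun b : Q → V → Fin j → Bool => F b)).card : ℝ) ≤ θ := by
    have h1 : ρ ^ (Fintype.card V * Fintype.card Q)
      * ((Finset.univ.filter (fun b : Q → V → Fin j → Bool => F b)).card : ℝ)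
      = ∑ b ∈ Finset.univ.filter (fun b : Q → V → Fin j → Bool => F b),
        ∑ Z : Q → V → Fin j → Bool, ∑ ξ : Q → V → Bool,
          M Z * wt ρ ξ * (if X Z ξ = b then 1 else 0) := by
      rw [Finset.sum_congr rfl (fun b _ => hone b), Finset.sum_const, nsmul_eq_mul, mul_comm]
    rw [h1, Finset.sum_comm]
    have h2 : ∀ Z : Q → V → Fin j → Bool,
        ∑ b ∈ Finset.univ.filter (fun b : Q → V → Fin j → Bool => F b),
          ∑ ξ : Q → V → Bool, M Z * wt ρ ξ * (if X Z ξ = b then 1 else 0)
        = M Z * ∑ ξ : Q → V → Bool, (if F (X Z ξ) then wt ρ ξ else 0) := by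
      intro Z
      rw [Finset.sum_comm, Finset.mul_sum]
      refine Finset.sum_congr rfl (fun ξ _ => ?_)
      have h3 : ∀ b : Q → V → Fin j → Bool, M Z * wt ρ ξ * (if X Z ξ = b then (1 : ℝ) else 0)
          = if X Z ξ = b then M Z * wt ρ ξ else 0 := by
        intro b
        split_ifs <;> ring
      rw [Finset.sum_congr rfl (fun b _ => h3 b), Finset.sum_ite_eq]
      by_cases h4 : F (X Z ξ)
      · simp [h4]
      · simp [h4]
    rw [Finset.sum_congr rfl (fun Z _ => h2 Z)]
    calc ∑ Z, M Z * ∑ ξ : Q → V → Bool, (if F (X Z ξ) then wt ρ ξ else 0)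
        ≤ ∑ Z, M Z * θ := by
          refine Finset.sum_le_sum (fun Z _ => ?_)
          by_cases hZ : ∀ q v, Z q v ≠ fun _ => true
          · exact mul_le_mul_of_nonneg_left (hF Z hZ) (hM0 Z)
          · push Not at hZ
            obtain ⟨q, v, hqv⟩ := hZ
            have h5 : M Z = 0 := by
              refine Finset.prod_eq_zero (Finset.mem_univ q) (Finset.prod_eq_zero
                (Finset.mem_univ v) ?_)
              unfold mu
              rw [if_pos hqv]
            rw [h5, zero_mul, zero_mul]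
      _ = θ := by rw [← Finset.sum_mul, hMtot, one_mul]
  have h6 : ρ ^ (Fintype.card V * Fintype.card Q)
      * (2 : ℝ) ^ (j * (Fintype.card Q * Fintype.card V)) = 1 := by
    rw [hρ, ← pow_mul, show j * (Fintype.card V * Fintype.card Q)
      = j * (Fintype.card Q * Fintype.card V) by ring, ← mul_pow]
    norm_num
  have h7 : (0 : ℝ) < (2 : ℝ) ^ (j * (Fintype.card Q * Fintype.card V)) := by positivity
  calc ((Finset.univ.filter (fun b : Q → V → Fin j → Bool => F b)).card : ℝ)
      = (ρ ^ (Fintype.card V * Fintype.card Q)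
        * ((Finset.univ.filter (fun b : Q → V → Fin j → Bool => F b)).card : ℝ))
        * (2 : ℝ) ^ (j * (Fintype.card Q * Fintype.card V)) := by
        rw [mul_right_comm, h6, one_mul]
    _ ≤ θ * (2 : ℝ) ^ (j * (Fintype.card Q * Fintype.card V)) :=
        mul_le_mul_of_nonneg_right hkey h7.le

end Pool.Agent.Helper19.CS
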