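import Pool.Agent.Helper19.CS.FUL

/-!
Row TAL of project CS: many critical rows are unlikely.
-/

namespace Pool.Agent.Helper19.CS

open Pool.Agent.Helper62.CS Classical

/-- the event of row COR -/
def EvI {Q V : Type} (k : ℕ) (g : (Q → V → Bool) → Prop) (I : Finset Q)
    (ξ : Q → V → Bool) : Prop :=
  g ξ ∧ ∀ q ∈ I, ∃ F : Finset (Q × V), F.card ≤ k ∧
      (∀ e ∈ F, e.1 ∈ I → e.1 = q) ∧
      ∀ ξ' : Q → V → Bool, (∀ e ∈ F, ξ' e.1 e.2 = clr ξ q e.1 e.2) → ¬ g ξ'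

theorem exists_I (hIND : ST_IND) {Q V : Type} [Fintype Q] [Fintype V] {k m : ℕ}
    {g : (Q → V → Bool) → Prop} (hg : Crt0 k g) (ξ : Q → V → Bool) (h1 : g ξ)
    (h2 : 2 * m * (2 * k + 1) ≤ (crit g ξ).card) :
    ∃ I ∈ (Finset.univ : Finset Q).powersetCard (2 * m), EvI k g I ξ := by
  have hF : ∀ q : Q, ∃ F : Finset (Q × V), q ∈ crit g ξ → (F.card ≤ k ∧
      ∀ ξ' : Q → V → Bool, (∀ e ∈ F, ξ' e.1 e.2 = clr ξ q e.1 e.2) → ¬ g ξ') := by
    intro q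
    by_cases hq : q ∈ crit g ξ
    · have hq' : ¬ g (clr ξ q) := by
        unfold crit at hq
        rw [Finset.mem_filter] at hq
        exact hq.2
      obtain ⟨F, hF1, hF2⟩ := hg (clr ξ q) hq'
      exact ⟨F, fun _ => ⟨hF1, hF2⟩⟩
    · exact ⟨∅, fun h => absurd h hq⟩
  choose F hF using hF
  obtain ⟨I, hI1, hI2, hI3⟩ := hIND Q (crit g ξ) (fun q => (F q).image Prod.fst) k (2 * m)
    (fun q hq => le_trans Finset.card_image_le (hF q hq).1) h2
  refine ⟨I, ?_, h1, fun q hq => ⟨F q, (hF q (hI1 hq)).1, ?_, (hF q (hI1 hq)).2⟩⟩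
  · rw [Finset.mem_powersetCard]
    exact ⟨Finset.subset_univ I, hI2⟩
  · intro e he heI
    by_contra hne
    exact hI3 q hq e.1 heI (fun h => hne h.symm) (Finset.mem_image_of_mem _ he)

theorem wt_nonneg {Q V : Type} [Fintype Q] [Fintype V] {ρ : ℝ} (h0 : 0 ≤ ρ) (h1 : ρ ≤ 1)
    (ξ : Q → V → Bool) : 0 ≤ wt ρ ξ := by
  refine Finset.prod_nonneg (fun q _ => Finset.prod_nonneg (fun v _ => ?_))
  split_ifs
  · exact h0
  · linarith

theorem tail_bound (N k m : ℕ) (ρ : ℝ) (h0 : 0 ≤ ρ) (hN : (N : ℝ) * ρ ≤ 1)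
    (hm : 4 * k ^ 2 ≤ m) :
    (N.choose (2 * m) : ℝ) * ((k : ℝ) * ρ) ^ (2 * m) ≤ (1 / 4 : ℝ) ^ m := by
  have h1 : (N.choose (2 * m) : ℝ) ≤ (N : ℝ) ^ (2 * m) / ((2 * m).factorial : ℝ) :=
    Nat.choose_le_pow_div (2 * m) N
  have hfac : m ^ m ≤ (2 * m).factorial := by
    have h2 := Nat.factorial_mul_pow_le_factorial (m := m) (n := m)
    have h3 : m ^ m ≤ (m + 1) ^ m := Nat.pow_le_pow_left (by omega) m
    have h4 : 1 ≤ m.factorial := Nat.factorial_pos m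
    have h5 : (m + 1) ^ m ≤ m.factorial * (m + 1) ^ m := Nat.le_mul_of_pos_left _ h4
    rw [two_mul]
    exact le_trans h3 (le_trans h5 h2)
  have hk : k ^ (2 * m) * 4 ^ m ≤ (2 * m).factorial := by
    calc k ^ (2 * m) * 4 ^ m = (4 * k ^ 2) ^ m := by
          rw [mul_pow, pow_mul, mul_comm]
      _ ≤ m ^ m := Nat.pow_le_pow_left hm m
      _ ≤ (2 * m).factorial := hfac
  have hkR : (k : ℝ) ^ (2 * m) * 4 ^ m ≤ ((2 * m).factorial : ℝ) := by
    exact_mod_cast hk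
  have hfpos : (0 : ℝ) < ((2 * m).factorial : ℝ) := by
    exact_mod_cast Nat.factorial_pos (2 * m)
  have h6 : ((N : ℝ) * ρ) ^ (2 * m) ≤ 1 := pow_le_one₀ (by positivity) hN
  calc (N.choose (2 * m) : ℝ) * ((k : ℝ) * ρ) ^ (2 * m)
      ≤ (N : ℝ) ^ (2 * m) / ((2 * m).factorial : ℝ) * ((k : ℝ) * ρ) ^ (2 * m) :=
        mul_le_mul_of_nonneg_right h1 (by positivity)
    _ = ((N : ℝ) * ρ) ^ (2 * m) * ((k : ℝ) ^ (2 * m) / ((2 * m).factorial : ℝ)) := by
        rw [mul_pow, mul_pow]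
        ring
    _ ≤ 1 * ((k : ℝ) ^ (2 * m) / ((2 * m).factorial : ℝ)) :=
        mul_le_mul_of_nonneg_right h6 (by positivity)
    _ = (k : ℝ) ^ (2 * m) / ((2 * m).factorial : ℝ) := one_mul _
    _ ≤ (1 / 4 : ℝ) ^ m := by
        rw [div_le_iff₀ hfpos]
        have h7 : (1 / 4 : ℝ) ^ m * ((k : ℝ) ^ (2 * m) * 4 ^ m) = (k : ℝ) ^ (2 * m) := by
          rw [mul_comm ((k : ℝ) ^ (2 * m)), ← mul_assoc, ← mul_pow]
          norm_num
        calc (k : ℝ) ^ (2 * m) = (1 / 4 : ℝ) ^ m * ((k : ℝ) ^ (2 * m) * 4 ^ m) := h7.symm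
          _ ≤ (1 / 4 : ℝ) ^ m * ((2 * m).factorial : ℝ) :=
            mul_le_mul_of_nonneg_left hkR (by positivity)

theorem st_TAL : ST_IND → ST_COR → ST_TAL := by
  intro hIND hCOR Q V _ _ ρ k m g h0 h1 hN hg hm
  have hstep : ∀ ξ : Q → V → Bool,
      (if (g ξ ∧ 2 * m * (2 * k + 1) ≤ (crit g ξ).card) then wt ρ ξ else 0)
      ≤ ∑ I ∈ (Finset.univ : Finset Q).powersetCard (2 * m),
        (if EvI k g I ξ then wt ρ ξ else 0) := by
    intro ξ
    have hnn : ∀ I ∈ (Finset.univ : Finset Q).powersetCard (2 * m),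
        0 ≤ (if EvI k g I ξ then wt ρ ξ else 0) := by
      intro I _
      split_ifs
      · exact wt_nonneg h0 h1 ξ
      · exact le_refl 0
    by_cases h : g ξ ∧ 2 * m * (2 * k + 1) ≤ (crit g ξ).card
    · rw [if_pos h]
      obtain ⟨I, hI1, hI2⟩ := exists_I hIND hg ξ h.1 h.2
      calc wt ρ ξ = (if EvI k g I ξ then wt ρ ξ else 0) := by rw [if_pos hI2]
        _ ≤ _ := Finset.single_le_sum hnn hI1
    · rw [if_neg h]
      exact Finset.sum_nonneg hnn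
  calc (∑ ξ : Q → V → Bool,
      if (g ξ ∧ 2 * m * (2 * k + 1) ≤ (crit g ξ).card) then wt ρ ξ else 0)
      ≤ ∑ ξ : Q → V → Bool, ∑ I ∈ (Finset.univ : Finset Q).powersetCard (2 * m),
        (if EvI k g I ξ then wt ρ ξ else 0) := Finset.sum_le_sum (fun ξ _ => hstep ξ)
    _ = ∑ I ∈ (Finset.univ : Finset Q).powersetCard (2 * m), ∑ ξ : Q → V → Bool,
        (if EvI k g I ξ then wt ρ ξ else 0) := Finset.sum_comm
    _ ≤ ∑ I ∈ (Finset.univ : Finset Q).powersetCard (2 * m), ((k : ℝ) * ρ) ^ (2 * m) := by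
        refine Finset.sum_le_sum (fun I hI => ?_)
        rw [Finset.mem_powersetCard] at hI
        have h2 := hCOR Q V ρ k g I h0 h1
        rw [hI.2] at h2
        refine le_trans (le_of_eq (Finset.sum_congr rfl (fun ξ _ => ?_))) h2
        by_cases h : EvI k g I ξ
        · rw [if_pos h]
          exact (if_pos h).symm
        · rw [if_neg h]
          exact (if_neg h).symm
    _ = ((Fintype.card Q).choose (2 * m) : ℝ) * ((k : ℝ) * ρ) ^ (2 * m) := by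
        rw [Finset.sum_const, Finset.card_powersetCard, Finset.card_univ, nsmul_eq_mul]
    _ ≤ (1 / 4 : ℝ) ^ m := tail_bound _ k m ρ h0 hN hm

end Pool.Agent.Helper19.CS
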